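import Mathlib
import Pool.Agent.Lib.MP_33b3f9_ag.Rx.Main
import Pool.Agent.Lib.MP_33b3f9_ag.M4.FP.Pm

/-!
Integral matrices that commute with a complex structure: the trace form bounds the operator norm.
-/

set_option autoImplicit false

namespace MG.Ry

open Complex Matrix M4 M4.Rx

variable {ι α : Type} [Fintype ι] [DecidableEq ι] {τ : Matrix ι ι ℂ}

/-- The points of the Siegel space whose complex structure commutes with all `a i`. -/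
def Fy (a : α → Matrix (ι ⊕ ι) (ι ⊕ ι) ℤ) : Set (HH ι) :=
  {τ | ∀ i, mz (a i) * cst τ.1 = cst τ.1 * mz (a i)}

/-- The trace form of `g` is at most `m`. -/
def Tb (g : Matrix (ι ⊕ ι) (ι ⊕ ι) ℤ) (m : ℝ) : Prop :=
  (((-(J ι ℤ * gᵀ * J ι ℤ) * g).trace : ℤ) : ℝ) ≤ m

theorem comm_of_rel (hτ : InH τ) {g : Matrix (ι ⊕ ι) (ι ⊕ ι) ℝ} (h : Rel g τ τ) :
    cst τ * g = g * cst τ := by
  have hr := rel_iff.1 h
  refine Matrix.ext_iff_mulVec.2 fun x => (per_bijective hτ).1 ?_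
  rw [← mulVec_mulVec, ← mulVec_mulVec, per_cst hτ, hr, hr, per_cst hτ, mulVec_smul]

theorem rel_of_comm (hτ : InH τ) {g : Matrix (ι ⊕ ι) (ι ⊕ ι) ℝ} (h : cst τ * g = g * cst τ) :
    Rel g τ τ := by
  have h0 : ∀ u : ι → ℝ, per τ (Sum.elim 0 u) = fun i => (u i : ℂ) := fun u => by
    have e : fa (Sum.elim (0 : ι → ℝ) u) = 0 := by
      funext i
      simp [fa]
    rw [per, e, mulVec_zero, zero_add]
    rfl
  have h1 : ∀ u : ι → ℝ, per τ (g *ᵥ Sum.elim 0 u) = jf g τ *ᵥ fun i => (u i : ℂ) := fun u => by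
    have e : fa (Sum.elim (0 : ι → ℝ) u) = 0 := by
      funext i
      simp [fa]
    have e' : fb (Sum.elim (0 : ι → ℝ) u) = fun i => (u i : ℂ) := rfl
    rw [per, act_fa_mulVec, act_fb_mulVec, e, e', mulVec_zero, mulVec_zero, zero_add, zero_add, jf,
      add_mulVec, mulVec_mulVec]
  refine rel_iff.2 fun x => ?_
  have h2 : (fun i => ((per τ x i).re : ℂ)) + I • (fun i => ((per τ x i).im : ℂ)) = per τ x := by
    funext i
    rw [Pi.add_apply, Pi.smul_apply, smul_eq_mul, mul_comm]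
    exact re_add_im _
  have h3 : x = Sum.elim (0 : ι → ℝ) (fun i => (per τ x i).re) +
      cst τ *ᵥ Sum.elim (0 : ι → ℝ) (fun i => (per τ x i).im) :=
    (per_bijective hτ).1 (by rw [per_add, per_cst hτ, h0, h0, h2])
  conv_lhs => rw [h3]
  rw [mulVec_add, mulVec_mulVec, ← h, ← mulVec_mulVec, per_add, per_cst hτ, h1, h1, ← mulVec_smul,
    ← mulVec_add, h2]

/-- For a similitude, commuting with the complex structure means fixing the point. -/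
theorem fy_iff (hτ : InH τ) {g : Matrix (ι ⊕ ι) (ι ⊕ ι) ℝ} {m : ℝ} (hg : Sim g m) (hm : 0 < m) :
    act g τ = τ ↔ g * cst τ = cst τ * g := by
  refine ⟨fun h => ?_, fun h =>
    ((rel_iff_eq_act (den_det_ne_zero hg hm hτ)).1 (rel_of_comm hτ h.symm)).symm⟩
  have := (M4.cst_act hg hm hτ).symm
  rwa [h] at this

omit [DecidableEq ι] in
theorem hs_le (k : Matrix (ι ⊕ ι) (ι ⊕ ι) ℝ) (y : ι ⊕ ι → ℝ) :
    (k *ᵥ y) ⬝ᵥ (k *ᵥ y) ≤ (k * kᵀ).trace * (y ⬝ᵥ y) := by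
  rw [dotProduct, Matrix.trace, Finset.sum_mul]
  refine Finset.sum_le_sum fun i _ => ?_
  have h := Finset.sum_mul_sq_le_sq_mul_sq Finset.univ (k i) y
  simpa only [sq, mulVec, dotProduct, diag_apply, Matrix.mul_apply, transpose_apply] using h

/-- The trace form bounds the operator norms of `g` and of its adjoint. -/
theorem Qf_le (hτ : InH τ) {g : Matrix (ι ⊕ ι) (ι ⊕ ι) ℝ} (h : cst τ * g = g * cst τ) :
    0 ≤ (-(J ι ℝ * gᵀ * J ι ℝ) * g).trace ∧ ∀ x,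
    Qf τ (g *ᵥ x) ≤ (-(J ι ℝ * gᵀ * J ι ℝ) * g).trace * Qf τ x ∧
    Qf τ (-(J ι ℝ * gᵀ * J ι ℝ) *ᵥ x) ≤ (-(J ι ℝ * gᵀ * J ι ℝ) * g).trace * Qf τ x := by
  obtain ⟨s, hs, e⟩ := FP.Pm_fac hτ
  rw [FP.Pm] at e
  have hu : IsUnit s.det := ((FP.sim_of_mem hs).det_ne_zero one_ne_zero).isUnit
  have hQ : ∀ x, Qf τ x = (s *ᵥ x) ⬝ᵥ (s *ᵥ x) := fun x => by
    rw [Qf, E_swap, act_E_J, neg_neg, mulVec_mulVec, e, ← mulVec_mulVec, dotProduct_mulVec,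
      vecMul_transpose]
  generalize cst τ = C at h e
  have h1 : Cᵀ * J ι ℝ = -(J ι ℝ * C) := by
    have := congrArg transpose e
    rw [transpose_mul, transpose_mul, transpose_transpose, ← e, J_transpose, Matrix.mul_neg] at this
    rw [← this, neg_neg]
  have h2 : J ι ℝ * C * J ι ℝ = Cᵀ := by
    have := congrArg (· * J ι ℝ) h1
    simp only [Matrix.mul_assoc, J_squared, Matrix.mul_neg, Matrix.mul_one, Matrix.neg_mul,
      neg_inj] at this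
    rw [this, Matrix.mul_assoc]
  obtain ⟨A, hA⟩ : ∃ A, A = -(J ι ℝ * gᵀ * J ι ℝ) := ⟨_, rfl⟩
  rw [← hA]
  have h3 : sᵀ * s * A = gᵀ * (sᵀ * s) := by
    have h4 := congrArg transpose h
    rw [transpose_mul, transpose_mul] at h4
    rw [← e, hA, Matrix.mul_neg, ← Matrix.mul_assoc, ← Matrix.mul_assoc, h2, ← h4,
      Matrix.mul_assoc, h1, Matrix.mul_neg, neg_neg]
  obtain ⟨k, hk⟩ : ∃ k, k = s * g * s⁻¹ := ⟨_, rfl⟩
  have h4 : k * s = s * g := by rw [hk, nonsing_inv_mul_cancel_right _ _ hu]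
  have h5 : kᵀ * s = s * A := by
    have hu' : IsUnit sᵀ.det := by rwa [det_transpose]
    have h6 := congrArg transpose h4
    rw [transpose_mul, transpose_mul] at h6
    rw [← nonsing_inv_mul_cancel_left sᵀ (kᵀ * s) hu', ← Matrix.mul_assoc sᵀ, h6, Matrix.mul_assoc gᵀ,
      ← h3, Matrix.mul_assoc, nonsing_inv_mul_cancel_left _ _ hu']
  have h6 : (A * g).trace = (kᵀ * k).trace := by
    conv_rhs => rw [← mul_nonsing_inv_cancel_right s (kᵀ * k) hu, Matrix.mul_assoc kᵀ, h4,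
      ← Matrix.mul_assoc kᵀ, h5, trace_mul_comm, Matrix.mul_assoc s,
      nonsing_inv_mul_cancel_left _ _ hu]
  rw [h6]
  refine ⟨FP.pm_trace_nonneg k, fun x => ⟨?_, ?_⟩⟩
  · rw [hQ, hQ, mulVec_mulVec, ← h4, ← mulVec_mulVec, trace_mul_comm]
    exact hs_le _ _
  · rw [hQ, hQ, mulVec_mulVec, ← h5, ← mulVec_mulVec]
    simpa only [transpose_transpose] using hs_le kᵀ (s *ᵥ x)

omit [Fintype ι] in
theorem mz_J : mz (J ι ℤ) = J ι ℝ := map_J ι (Int.castRingHom ℝ)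

theorem mz_adj (g : Matrix (ι ⊕ ι) (ι ⊕ ι) ℤ) :
    mz (-(J ι ℤ * gᵀ * J ι ℤ)) = -(J ι ℝ * (mz g)ᵀ * J ι ℝ) := by
  rw [← mz_J, show (mz g)ᵀ = mz gᵀ from rfl, ← mz_mul, ← mz_mul]
  ext i j
  simp [mz]

theorem Tb.le {g : Matrix (ι ⊕ ι) (ι ⊕ ι) ℤ} {m : ℝ} (hg : Tb g m) :
    (-(J ι ℝ * (mz g)ᵀ * J ι ℝ) * mz g).trace ≤ m := by
  rw [← mz_adj, ← mz_mul]
  refine le_of_eq_of_le ?_ hg
  simp [mz, Matrix.trace]

theorem Tb.Qf_le {g : Matrix (ι ⊕ ι) (ι ⊕ ι) ℤ} {m : ℝ} (hg : Tb g m) (hτ : InH τ)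
    (h : cst τ * mz g = mz g * cst τ) : 0 ≤ m ∧ ∀ x, Qf τ (mz g *ᵥ x) ≤ m * Qf τ x ∧
      Qf τ (mz (-(J ι ℤ * gᵀ * J ι ℤ)) *ᵥ x) ≤ m * Qf τ x := by
  obtain ⟨h0, h1⟩ := Ry.Qf_le hτ h
  rw [mz_adj]
  exact ⟨h0.trans hg.le, fun x => ⟨(h1 x).1.trans
    (mul_le_mul_of_nonneg_right hg.le (Mo.modPD_nonneg hτ x)), (h1 x).2.trans
    (mul_le_mul_of_nonneg_right hg.le (Mo.modPD_nonneg hτ x))⟩⟩

end MG.Ry
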