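import Mathlib
import Pool.Agent.Lib.MP_33b3f9_ag.MG.Ry.A

/-!
The retraction of the locus where the complex structure commutes with a family to its thick part.
-/

set_option autoImplicit false

namespace MG.Ry

open Complex Matrix M4 M4.Rx

variable {ι α : Type} [Fintype ι] [DecidableEq ι] {P : Matrix ι ι ℝ}
  {F : Submodule ℝ (ι → ℝ)} {τ : Matrix ι ι ℂ} {c ρ : ℝ}

/-- If `g` fixes `τ` and preserves `0 ⊕ F`, then it fixes the line. -/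
theorem fixes (hτ : InH τ) (h : Pj (τ.map im) P F)
    {g : Matrix (ι ⊕ ι) (ι ⊕ ι) ℝ} (hc : cst τ * g = g * cst τ)
    (hF : ∀ f ∈ F, g.toBlocks₁₂ *ᵥ f = 0 ∧ g.toBlocks₂₂ *ᵥ f ∈ F ∧ g.toBlocks₁₂ᵀ *ᵥ f = 0 ∧
      g.toBlocks₁₁ᵀ *ᵥ f ∈ F) {w : ℂ} (hw : -1 < w.im) :
    cst (τ + w • P.map ofReal) * g = g * cst (τ + w • P.map ofReal) := by
  have hr := rel_of_comm hτ hc
  refine comm_of_rel (h.inH hτ hw) ?_
  have h1 : g.toBlocks₁₂ * P = 0 := Matrix.ext_iff_mulVec.2 fun x => by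
    rw [← mulVec_mulVec, (hF _ (h.mem x)).1, zero_mulVec]
  have h2 : P * g.toBlocks₁₂ = 0 := by
    rw [← transpose_eq_zero, transpose_mul, h.symm]
    exact Matrix.ext_iff_mulVec.2 fun x => by
      rw [← mulVec_mulVec, (hF _ (h.mem x)).2.2.1, zero_mulVec]
  have h3 := h.mul (N := g.toBlocks₂₂ * P) fun x => by
    rw [← mulVec_mulVec]
    exact (hF _ (h.mem x)).2.1
  have h4 := congrArg transpose (h.mul (N := g.toBlocks₁₁ᵀ * P) fun x => by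
    rw [← mulVec_mulVec]
    exact (hF _ (h.mem x)).2.2.2)
  simp only [transpose_mul, transpose_transpose, h.symm, tr_posDef hτ.2.inv] at h4
  rw [← fromBlocks_toBlocks g, cst, fromBlocks_multiply, fromBlocks_multiply] at hc
  have h5 := (fromBlocks_inj.1 hc).2.1
  have h6 : g.toBlocks₂₂ * P = P * g.toBlocks₁₁ := by
    have h7 := congrArg (fun N => P * N * P) h5
    simp only [Matrix.mul_add, Matrix.add_mul, Matrix.mul_assoc, h1, Matrix.mul_zero,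
      zero_add] at h7
    rw [← Matrix.mul_assoc P g.toBlocks₁₂, h2, Matrix.zero_mul, add_zero] at h7
    rw [← h3, ← h4]
    simp only [Matrix.mul_assoc]
    exact h7
  have e : ∀ M N : Matrix ι ι ℝ, M.map ofReal * N.map ofReal = (M * N).map ofReal := fun M N =>
    (Matrix.map_mul (f := ofRealHom)).symm
  have h1' : g.toBlocks₁₂.map ofReal * P.map ofReal = 0 := by
    rw [e, h1, Matrix.map_zero _ ofReal_zero]
  have h2' : P.map ofReal * g.toBlocks₁₂.map ofReal = 0 := by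
    rw [e, h2, Matrix.map_zero _ ofReal_zero]
  have h6' : g.toBlocks₂₂.map ofReal * P.map ofReal = P.map ofReal * g.toBlocks₁₁.map ofReal := by
    rw [e, e, h6]
  rw [M4.Rel, jf] at hr ⊢
  simp only [Matrix.add_mul, Matrix.mul_add, Matrix.smul_mul, Matrix.mul_smul, h2', h6', smul_zero,
    add_zero, Matrix.mul_assoc, h1', Matrix.mul_zero, zero_add] at hr ⊢
  rw [← hr]
  abel

/-- If the span of the short vectors does not grow, it is stable. -/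
theorem stable (hτ : InH τ) (hc : Mn c (τ.map im)) (hρ : ρ < c)
    {a : Matrix (ι ⊕ ι) (ι ⊕ ι) ℤ} {m m0 : ℝ} (ha : Tb a m) (hm : 0 < m0) (hm0 : m ≤ m0)
    (hfix : cst τ * mz a = mz a * cst τ) : ∀ f ∈ Sh (τ.map im) (ρ / m0),
      (mz a).toBlocks₁₂ *ᵥ f = 0 ∧ (mz a).toBlocks₂₂ *ᵥ f ∈ Sh (τ.map im) ρ ∧
      (mz a).toBlocks₁₂ᵀ *ᵥ f = 0 ∧ (mz a).toBlocks₁₁ᵀ *ᵥ f ∈ Sh (τ.map im) ρ := by
  intro f hf
  induction hf using Submodule.span_induction with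
  | zero => simp
  | add x y _ _ hx hy =>
    simp only [mulVec_add, hx.1, hy.1, hx.2.2.1, hy.2.2.1, add_zero, true_and]
    exact ⟨add_mem hx.2.1 hy.2.1, add_mem hx.2.2.2 hy.2.2.2⟩
  | smul r x _ hx =>
    simp only [mulVec_smul, hx.1, hx.2.2.1, smul_zero, true_and]
    exact ⟨Submodule.smul_mem _ _ hx.2.1, Submodule.smul_mem _ _ hx.2.2.2⟩
  | mem x hx =>
    obtain ⟨⟨n, rfl⟩, hn⟩ := hx
    have hQ := (ha.Qf_le hτ hfix).2 (Sum.elim 0 (rz n))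
    rw [Qf_elim hτ] at hQ
    have hle : m * (rz n ⬝ᵥ (τ.map im)⁻¹ *ᵥ rz n) ≤ ρ := by
      rw [le_div_iff₀ hm] at hn
      nlinarith [psd_nonneg hτ.2.inv.posSemidef (rz n)]
    have e0 : Sum.elim (0 : ι → ℝ) (rz n) = rz (Sum.elim 0 n) := by
      funext i
      rcases i with i | i <;> simp [rz]
    have e1 : mz a *ᵥ Sum.elim 0 (rz n) =
        Sum.elim ((mz a).toBlocks₁₂ *ᵥ rz n) ((mz a).toBlocks₂₂ *ᵥ rz n) := by
      conv_lhs => rw [← fromBlocks_toBlocks (mz a), fromBlocks_mulVec]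
      simp
    have h1 := short (p := (mz a).toBlocks₁₂ *ᵥ rz n) (q := (mz a).toBlocks₂₂ *ᵥ rz n) hτ hc hρ
      ⟨_, by rw [← e1, e0, thmod_rz]⟩ (by rw [← e1]; exact hQ.1.trans hle)
    have e2 : J ι ℝ *ᵥ ((mz a)ᵀ *ᵥ Sum.elim (rz n) 0) =
        Sum.elim (-((mz a).toBlocks₁₂ᵀ *ᵥ rz n)) ((mz a).toBlocks₁₁ᵀ *ᵥ rz n) := by
      conv_lhs => rw [← fromBlocks_toBlocks (mz a), fromBlocks_transpose, fromBlocks_mulVec, J,
        fromBlocks_mulVec]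
      simp [neg_mulVec]
    have e3 : mz (-(J ι ℤ * aᵀ * J ι ℤ)) *ᵥ Sum.elim 0 (rz n) =
        J ι ℝ *ᵥ ((mz a)ᵀ *ᵥ Sum.elim (rz n) 0) := by
      have e5 : J ι ℝ *ᵥ Sum.elim 0 (rz n) = -Sum.elim (rz n) 0 := by
        rw [J, fromBlocks_mulVec]
        funext i
        rcases i with i | i <;> simp [neg_mulVec]
      rw [mz_adj, neg_mulVec, ← mulVec_mulVec, e5, mulVec_neg, neg_neg, mulVec_mulVec]
    have e4 : J ι ℝ *ᵥ ((mz a)ᵀ *ᵥ Sum.elim (rz n) 0) =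
        rz (J ι ℤ *ᵥ (aᵀ *ᵥ Sum.elim n 0)) := by
      have e5 : Sum.elim (rz n) (0 : ι → ℝ) = rz (Sum.elim n 0) := by
        funext i
        rcases i with i | i <;> simp [rz]
      have e6 : J ι ℝ = mz (J ι ℤ) := (map_J ι (Int.castRingHom ℝ)).symm
      rw [e5, e6, ← thmod_rz, ← thmod_rz]
      rfl
    have h2 := short (p := -((mz a).toBlocks₁₂ᵀ *ᵥ rz n)) (q := (mz a).toBlocks₁₁ᵀ *ᵥ rz n) hτ hc hρ
      ⟨_, by rw [← e2, e4]⟩ (by rw [← e2, ← e3]; exact hQ.2.trans hle)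
    exact ⟨h1.1, h1.2, neg_eq_zero.1 h2.1, h2.2⟩

/-- The retraction. -/
theorem retract {a : α → Matrix (ι ⊕ ι) (ι ⊕ ι) ℤ} {m m0 : ℝ}
    (hm0 : m ≤ m0) (h1 : 1 ≤ m0) (ha : ∀ i, Tb (a i) m) (hc0 : 0 < c) {n : ℕ}
    {f : HH ι → ℂ} (hf : f ∈ MF ι n) {M : ℝ} (d : ℕ) : ∀ ρ : ℝ, 0 ≤ ρ → ρ < c → 2 * c * ρ < 1 →
      (∀ σ ∈ Fy a, Mn c (σ.1.map im) → Mn (ρ / m0 ^ d) (σ.1.map im)⁻¹ → ‖f σ‖ ≤ M) →
      ∀ τ ∈ Fy a, Mn c (τ.1.map im) → Module.finrank ℝ (Sh (τ.1.map im) ρ) ≤ d → ‖f τ‖ ≤ M := by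
  induction d with
  | zero =>
    intro ρ _ _ _ hM τ hτ hc hd
    refine hM τ hτ hc ?_
    rw [pow_zero, div_one]
    exact Mn_of_bot (Submodule.finrank_eq_zero.1 (Nat.le_zero.1 hd))
  | succ d ih =>
    intro ρ hρ0 hρ hρ2 hM τ hτ hc hd
    have hle : ρ / m0 ≤ ρ := div_le_self hρ0 h1
    have hρ0' : 0 ≤ ρ / m0 := div_nonneg hρ0 (by linarith)
    have hρ2' : 2 * c * (ρ / m0) < 1 := (mul_le_mul_of_nonneg_left hle (by linarith)).trans_lt hρ2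
    have ih' := ih (ρ / m0) hρ0' (hle.trans_lt hρ) hρ2' fun σ h2 h3 h4 =>
      hM σ h2 h3 (by rwa [div_div, ← pow_succ'] at h4)
    by_cases hd' : Module.finrank ℝ (Sh (τ.1.map im) (ρ / m0)) ≤ d
    · exact ih' τ hτ hc hd'
    have e : Sh (τ.1.map im) (ρ / m0) = Sh (τ.1.map im) ρ :=
      Submodule.eq_of_le_of_finrank_le (Sh_mono (fun _ => le_rfl) hle) (by omega)
    obtain ⟨P, hP⟩ := exists_Pj τ.2.2 (Sh (τ.1.map im) (ρ / m0))
    obtain ⟨t, ht, ht1, h2, u, hu, hu'⟩ := hP.exists_step τ.2.2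
      (fun h0 => hd' (by rw [h0, finrank_bot]; exact Nat.zero_le _)) hc0 hc
    refine hP.max hf τ ht ht1 fun w σ hw hσ => ?_
    have h3 : σ.1.map im = τ.1.map im + (t - 1) • P := by rw [hσ, line_im, hw]
    refine ih' σ (fun i => ?_) (by rwa [h3]) ?_
    · rw [hσ]
      refine (fixes τ.2 hP (hτ i).symm (fun x hx => ?_) (by linarith)).symm
      have := stable τ.2 hc hρ (ha i) (by linarith) hm0 (hτ i).symm x hx
      rwa [← e] at this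
    · rw [h3]
      have h4 := Submodule.finrank_lt_finrank_of_lt (lt_of_le_of_ne
        (Sh_mono (hP.inv_le τ.2.2 (s := t - 1) (by linarith) (by linarith)) le_rfl)
        (hP.drop τ.2.2 (by linarith) hρ2' hρ0' hu hu'))
      rw [← e] at hd
      omega

variable {a : α → Matrix (ι ⊕ ι) (ι ⊕ ι) ℤ} {m : ℝ}

theorem tb_cj (ha : ∀ i, Tb (a i) m) (γ : SpZ ι) (i : α) : Tb (cj γ a i) m := by
  have h1 : γ.1ᵀ * J ι ℤ * γ.1 = J ι ℤ := SymplecticGroup.mem_iff'.1 γ.2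
  have h2 : γ⁻¹.1 * J ι ℤ * γ⁻¹.1ᵀ = J ι ℤ := SymplecticGroup.mem_iff.1 γ⁻¹.2
  have e : (-(J ι ℤ * (cj γ a i)ᵀ * J ι ℤ) * cj γ a i).trace =
      (-(J ι ℤ * (a i)ᵀ * J ι ℤ) * a i).trace := by
    rw [cj, ← Matrix.mul_assoc, trace_mul_comm, ← Matrix.mul_assoc _ γ.1, ← Matrix.mul_assoc γ⁻¹.1]
    refine congrArg (fun M => (M * a i).trace) ?_
    rw [transpose_mul, transpose_mul, Matrix.neg_mul, Matrix.mul_neg]
    simp only [← Matrix.mul_assoc]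
    rw [h2]
    simp only [Matrix.mul_assoc] at h1 ⊢
    rw [h1]
  rw [Tb, e]
  exact ha i

theorem fy_cj (γ : SpZ ι) {τ : HH ι} (hτ : τ ∈ Fy a) : sH γ τ ∈ Fy (cj γ a) := fun i => by
  have h1 := M4.cst_act (sim_sp γ) one_pos τ.2
  have h2 : mz γ.1 * mz γ⁻¹.1 = 1 := by
    rw [← mz_mul, ← Submonoid.coe_mul, mul_inv_cancel, OneMemClass.coe_one, vlvan0_mz_one]
  have h3 : mz γ.1 * mz (a i) = mz (cj γ a i) * mz γ.1 := by rw [← mz_mul, ← mz_mul, cj_comm]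
  refine Eq.symm ?_
  rw [sH_val, ← Matrix.mul_one (_ * mz (cj γ a i)), ← Matrix.mul_one (mz (cj γ a i) * _), ← h2]
  simp only [← Matrix.mul_assoc]
  rw [Matrix.mul_assoc _ (mz (cj γ a i)), ← h3, ← Matrix.mul_assoc, h1, Matrix.mul_assoc (mz γ.1),
    ← hτ i, Matrix.mul_assoc (mz (cj γ a i)), h1, ← Matrix.mul_assoc (mz (cj γ a i)), ← h3,
    Matrix.mul_assoc (mz γ.1) (mz (a i))]

/-- A bound over a compact set gives a bound on the whole fixed locus. -/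
theorem bound_all (ι : Type) [Fintype ι] [DecidableEq ι] (α : Type) (m : ℝ) :
    ∃ (K : Set (ι → ι → ℂ)) (C : ℝ), IsCompact K ∧ (∀ τ ∈ K, InH τ) ∧ 0 ≤ C ∧
      ∀ a : α → Matrix (ι ⊕ ι) (ι ⊕ ι) ℤ, (∀ i, Tb (a i) m) →
      ∀ (k : ℕ) (f : HH ι → ℂ), f ∈ MF ι (8 * k) → ∀ M : ℝ, 0 ≤ M →
        (∀ σ ∈ Fy a, ∀ γ : SpZ ι, ((sH γ σ).1 : ι → ι → ℂ) ∈ K → Le k f M σ) →
        ∀ τ ∈ Fy a, Le k f (M * C ^ k) τ := by
  obtain ⟨m0, h1, hm0⟩ : ∃ m0 : ℝ, 1 ≤ m0 ∧ m ≤ m0 := ⟨_, le_max_left _ _, le_max_right _ _⟩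
  obtain ⟨c, hc, hred⟩ := vlvan_red ι
  obtain ⟨c0, hc0, hlow⟩ := NN_low ι
  obtain ⟨ρ, hρ, hρ1, hρ2⟩ : ∃ ρ : ℝ, 0 < ρ ∧ ρ < c ∧ 2 * c * ρ < 1 :=
    ⟨min (c / 2) (1 / (4 * c)), lt_min (by linarith) (by positivity),
      (min_le_left _ _).trans_lt (by linarith),
      (mul_le_mul_of_nonneg_left (min_le_right _ _) (by linarith)).trans_lt (by
        field_simp
        norm_num)⟩
  obtain ⟨K, C, hK, hKH, hC⟩ := thick_red ι hc
    (show 0 < ρ / m0 ^ Fintype.card ι by positivity)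
  refine ⟨K, (|C| / c0) ^ 8, hK, hKH, by positivity, fun a ha k f hf M hM0 hM τ hτ => ?_⟩
  obtain ⟨δ, hδ, h2⟩ := hred τ
  let d : SpZ ι := ⟨δ, hδ⟩
  have h3 : ‖slash k (mz d⁻¹.1) f (sH d τ)‖ ≤ M * |C| ^ (8 * k) := by
    refine retract hm0 h1 (tb_cj ha d) hc (slash_mem_sp d⁻¹.2 hf) (Fintype.card ι) ρ hρ.le hρ1
      hρ2 (fun σ hσ h3 h4 => ?_) _ (fy_cj d hτ) (fun n hn => le_trans ?_ (h2 (rz n)))
      ((Submodule.finrank_le _).trans (Module.finrank_fintype_fun_eq_card ℝ).le)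
    · obtain ⟨h5, γ, hγ, h6⟩ := hC σ.1 σ.2 h3 h4
      have h7 := fy_cj d⁻¹ hσ
      rw [← cj_mul, inv_mul_cancel, cj_one] at h7
      have h8 := hM _ h7 (⟨γ, hγ⟩ * d) (by
        rw [← sH_mul, mul_inv_cancel_right, sH_val]
        exact h6)
      exact ((le_slash d⁻¹ σ).2 h8).trans (mul_le_mul_of_nonneg_left
        (pow_le_pow_left₀ (NN_pos σ.2).le (h5.trans (le_abs_self _)) _) hM0)
    · obtain ⟨i, hi⟩ := Function.ne_iff.1 hn
      have h3 : (1 : ℝ) ≤ rz n i * rz n i := by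
        have : (1 : ℤ) ≤ n i * n i := Int.add_one_le_iff.2 (mul_self_pos.2 hi)
        simp only [rz]
        exact_mod_cast this
      exact le_mul_of_one_le_right hc.le (h3.trans (Finset.single_le_sum
        (f := fun j => rz n j * rz n j) (fun j _ => mul_self_nonneg _) (Finset.mem_univ i)))
  rw [← sH_inv d τ, ← le_slash]
  refine h3.trans ?_
  rw [← pow_mul, mul_assoc, ← mul_pow]
  refine mul_le_mul_of_nonneg_left (pow_le_pow_left₀ (abs_nonneg _) ?_ _) hM0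
  rw [div_mul_eq_mul_div, le_div_iff₀ hc0]
  exact mul_le_mul_of_nonneg_left (hlow _ (sH d τ).2) (abs_nonneg _)

end MG.Ry
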