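import Mathlib
import Pool.Agent.Lib.MP_33b3f9_ag.MG.Ry.B
import Pool.Agent.Lib.MP_33b3f9_ag.MG.Rx
import Pool.Agent.Lib.MP_33b3f9_ag.M4.FP.Sg

/-!
Families with bounded trace form: finitely many classes, and the dimension of the spaces of forms on
the locus where the complex structure commutes with the family.
-/

set_option autoImplicit false

namespace MG.Ry

open Complex Matrix M4 M4.Rx

variable {ι σ α : Type} [Fintype ι] [DecidableEq ι] [Fintype σ] {U : Set (σ → ℂ)}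

theorem finite_tb {K : Set (ι → ι → ℂ)} (hK : IsCompact K) (hH : ∀ τ ∈ K, InH τ) (m : ℝ) :
    {g : Matrix (ι ⊕ ι) (ι ⊕ ι) ℤ | Tb g m ∧
      ∃ τ ∈ K, mz g * cst τ = cst τ * mz g}.Finite := by
  obtain ⟨c, C, hc, hb⟩ := Mo.Qf_bounds hK hH
  refine Set.Finite.subset (Set.Finite.pi' fun _ : ι ⊕ ι => Set.Finite.pi' fun _ : ι ⊕ ι =>
    Set.finite_Icc (-⌈m * C / c⌉) ⌈m * C / c⌉) ?_
  rintro g ⟨hg, τ, hτ, hτ'⟩ i j
  have h1 := (hb _ hτ (mz g *ᵥ Pi.single j 1)).1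
  have h2 := (hb _ hτ (Pi.single j 1)).2
  obtain ⟨hm, h3⟩ := hg.Qf_le (hH _ hτ) hτ'.symm
  have h4 := norm_le_pi_norm (mz g *ᵥ Pi.single j 1) i
  rw [Pi.norm_single, norm_one, one_pow, mul_one] at h2
  have h5 : (mz g *ᵥ Pi.single j 1) i = (g i j : ℝ) := by
    rw [mulVec_single_one]
    rfl
  rw [h5, Real.norm_eq_abs] at h4
  have h6 : (g i j : ℝ) ^ 2 ≤ m * C / c := by
    rw [le_div_iff₀ hc, mul_comm, ← sq_abs]
    calc c * |(g i j : ℝ)| ^ 2 ≤ c * ‖mz g *ᵥ Pi.single j 1‖ ^ 2 := by gcongr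
      _ ≤ m * Qf τ (Pi.single j 1) := h1.trans (h3 _).1
      _ ≤ m * C := by gcongr
  have h7 : g i j ^ 2 ≤ ⌈m * C / c⌉ := by exact_mod_cast h6.trans (Int.le_ceil _)
  exact abs_le.1 ((Int.le_self_sq _).trans (by rwa [sq_abs]))

/-- Commuting with the complex structure is a closed condition. -/
theorem isClosed_comm {K : Set (ι → ι → ℂ)} (hK : IsClosed K) (hH : ∀ τ ∈ K, InH τ)
    (g : Matrix (ι ⊕ ι) (ι ⊕ ι) ℝ) : IsClosed {τ | τ ∈ K ∧ g * cst τ = cst τ * g} := by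
  have h0 : IsClosed {C : Matrix (ι ⊕ ι) (ι ⊕ ι) ℝ | g * C = C * g} :=
    isClosed_eq (continuous_const.matrix_mul continuous_id)
      (continuous_id.matrix_mul continuous_const)
  exact ContinuousOn.preimage_isClosed_of_isClosed (f := fun τ : ι → ι → ℂ => cst τ)
    (fun τ hτ => (FP.continuousAt_cst (hH τ hτ)).continuousWithinAt) hK h0

variable [Finite α]

/-- The families with a fixed point in a compact set. -/
theorem finite_fam (m : ℝ) {K : Set (ι → ι → ℂ)} (hK : IsCompact K)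
    (hH : ∀ τ ∈ K, InH τ) : {a : α → Matrix (ι ⊕ ι) (ι ⊕ ι) ℤ | (∀ i, Tb (a i) m) ∧
      ∃ τ ∈ Fy a, (τ.1 : ι → ι → ℂ) ∈ K}.Finite := by
  refine (Set.Finite.pi' fun _ => finite_tb hK hH m).subset ?_
  rintro a ⟨ha, τ, h1, h2⟩ i
  exact ⟨ha i, τ.1, h2, h1 i⟩

/-- Finitely many classes. -/
theorem finite_classes (ι : Type) [Fintype ι] [DecidableEq ι] (m : ℝ) {q : ℕ} (hq : q ≠ 0) :
    ∃ s : Set (α → Matrix (ι ⊕ ι) (ι ⊕ ι) ℤ), s.Finite ∧ ∀ a : α → Matrix (ι ⊕ ι) (ι ⊕ ι) ℤ,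
      (∀ i, Tb (a i) m) → (Fy a).Nonempty →
        ∃ a' ∈ s, ∃ γ ∈ symplecticGroup ι ℤ, Lv q γ ∧ ∀ i, γ * a i = a' i * γ := by
  obtain ⟨K, C, hK, hH, -, h⟩ := bound_all ι α m
  obtain ⟨R, -, -, hR⟩ := exists_reps' (ι := ι) ⊤ hq
  refine ⟨_, R.finite_toSet.biUnion fun δ _ => (finite_fam m hK hH).image (cj δ⁻¹), ?_⟩
  rintro a ha ⟨τ, hτ⟩
  obtain ⟨σ, hσ, γ, hγ⟩ : ∃ σ ∈ Fy a, ∃ γ : SpZ ι, ((sH γ σ).1 : ι → ι → ℂ) ∈ K := by
    by_contra hn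
    have h1 := h a ha 0 1 MF.one 0 le_rfl (fun σ h1 γ h2 => absurd ⟨σ, h1, γ, h2⟩ hn) τ hτ
    rw [Le, zero_mul, zero_mul, Pi.one_apply, norm_one] at h1
    exact absurd h1 (by norm_num)
  obtain ⟨δ, hδ, -, h1⟩ := hR γ trivial
  refine ⟨cj (δ⁻¹ * γ) a, Set.mem_biUnion hδ ⟨cj γ a, ⟨tb_cj ha γ, _, fy_cj γ hσ, hγ⟩,
    (cj_mul _ _ _).symm⟩, _, (δ⁻¹ * γ).2, h1, cj_comm _ a⟩

/-- A bound over a compact set for the translates by the centraliser gives a bound on the whole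
fixed locus. -/
theorem bound_one {a : α → Matrix (ι ⊕ ι) (ι ⊕ ι) ℤ} {m : ℝ}
    (ha : ∀ i, Tb (a i) m) :
    ∃ (K : Set (ι → ι → ℂ)) (C : ℝ), IsCompact K ∧ (∀ τ ∈ K, InH τ) ∧ 0 ≤ C ∧
      ∀ (k : ℕ) (f : HH ι → ℂ), f ∈ MF ι (8 * k) → ∀ M : ℝ, 0 ≤ M →
        (∀ η ∈ CG a, ∀ σ ∈ Fy a, (σ.1 : ι → ι → ℂ) ∈ K → Le k f M (sH η σ)) →
        ∀ τ ∈ Fy a, Le k f (M * C ^ k) τ := by
  obtain ⟨K, C, hK, hH, hC, h⟩ := bound_all ι α m
  have hg : ∀ a' : α → Matrix (ι ⊕ ι) (ι ⊕ ι) ℤ, ∃ g : SpZ ι, ∀ γ, cj γ a = a' → cj g a = a' :=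
    fun a' => by
      by_cases h1 : ∃ γ, cj γ a = a'
      · obtain ⟨γ, h1⟩ := h1
        exact ⟨γ, fun _ _ => h1⟩
      · exact ⟨1, fun γ h2 => absurd ⟨γ, h2⟩ h1⟩
  choose g hg using hg
  refine ⟨_, C, (finite_fam m hK hH).isCompact_biUnion fun a' _ => hK.image_of_continuousOn
    (f := fun σ : ι → ι → ℂ => (actZ (g a')⁻¹ σ : ι → ι → ℂ))
    fun τ hτ => (Mo.continuousAt_actZ _ (hH τ hτ)).continuousWithinAt, fun τ hτ => ?_, hC,
    fun k f hf M hM0 hM => h a ha k f hf M hM0 fun σ hσ γ hγ => ?_⟩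
  · obtain ⟨a', -, σ, hσ, rfl⟩ := Set.mem_iUnion₂.1 hτ
    exact Mo.inH_actZ _ (hH σ hσ)
  · have h1 : (g (cj γ a))⁻¹ * γ ∈ CG a := by
      change cj _ a = a
      rw [cj_mul]
      conv_lhs => rw [← hg _ γ rfl]
      rw [hg _ γ rfl]
      nth_rewrite 2 [← hg _ γ rfl]
      rw [← cj_mul, inv_mul_cancel, cj_one]
    have h2 := fy_cj ((g (cj γ a))⁻¹ * γ) hσ
    rw [show cj _ a = a from h1] at h2
    have h3 := hM _ (inv_mem h1) _ h2 (Set.mem_biUnion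
      (show cj γ a ∈ _ from ⟨tb_cj ha γ, _, fy_cj γ hσ, hγ⟩) ⟨_, hγ, by
        rw [sH_mul, sH_val _ (sH γ σ)]
        rfl⟩)
    rwa [sH_inv] at h3

/-- The dimension bound. -/
theorem dim_MIX {a : α → Matrix (ι ⊕ ι) (ι ⊕ ι) ℤ} {ch : U → HH ι}
    (hch : Rx.Chart (Fy a) U ch) :
    ∃ C : ℕ, ∀ q k : ℕ, q ≠ 0 → Module.Finite ℂ (MIX a ch {γ | Lv q γ} k) ∧
      Module.finrank ℂ (MIX a ch {γ | Lv q γ} k) ≤
        q ^ (4 * Fintype.card ι ^ 2) * C * (k + 1) ^ Fintype.card σ := by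
  classical
  obtain ⟨m, ha⟩ : ∃ m : ℝ, ∀ i, Tb (a i) m := by
    obtain ⟨m, hm⟩ := (Set.finite_range fun i =>
      (((-(J ι ℤ * (a i)ᵀ * J ι ℤ) * a i).trace : ℤ) : ℝ)).bddAbove
    exact ⟨m, fun i => hm ⟨i, rfl⟩⟩
  obtain ⟨K, C, hK, hH, hC0, hC⟩ := bound_one ha
  obtain ⟨K', hK2, hH', hpr⟩ := hch.proper K hK hH
  obtain ⟨r, hr, hrU⟩ := hK2.exists_cthickening_subset_open hch.op hH'
  obtain ⟨T, hT1, hT2, hT3⟩ := finite_cover_balls_of_compact hK2 (half_pos hr)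
  have hin : ∀ t ∈ T, ∀ y ∈ Metric.ball (0 : σ → ℂ) r,
      t + y ∈ Metric.cthickening r K' := fun t ht y hy =>
    Metric.mem_cthickening_of_dist_le _ t _ _ (hT1 ht) (by simpa using (Metric.mem_ball.1 hy).le)
  obtain ⟨C1, hC1⟩ : ∃ C1 : ℝ, ∀ t (ht : t ∈ Metric.cthickening r K'),
      NN (ch ⟨t, hrU ht⟩).1 ≤ C1 := by
    obtain ⟨Φ, hΦ, h1⟩ := hch.hol
    obtain ⟨c, hc, h2⟩ := im_low ((hK2.cthickening (r := r)).image_of_continuousOn
      (hΦ.continuousOn.mono hrU)) (by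
        rintro _ ⟨t, ht, rfl⟩
        rw [h1 ⟨t, hrU ht⟩]
        exact (ch _).2)
    obtain ⟨C1, h3⟩ := NN_up (ι := ι) hc
    exact ⟨C1, fun t ht => h3 _ (ch _).2 (h2 _ ⟨t, ht, h1 ⟨t, _⟩⟩)⟩
  obtain ⟨c0, hc0, hlow⟩ := NN_low ι
  obtain ⟨c1, hc1, hK1⟩ := im_low hK hH
  obtain ⟨C2, hC2⟩ := exists_pow_lt_of_lt_one (show 0 < c0 ^ 8 / (C * |C1| ^ 8 + 1) by positivity)
    (show (1 / 2 : ℝ) < 1 by norm_num)
  have hC3 : C * |C1| ^ 8 * (1 / 2) ^ C2 ≤ c0 ^ 8 := by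
    rw [lt_div_iff₀ (by positivity)] at hC2
    nlinarith [show (0 : ℝ) < (1 / 2) ^ C2 by positivity]
  refine ⟨hT2.toFinset.card * (C2 + 1) ^ Fintype.card σ, fun q k hq => ?_⟩
  obtain ⟨R, hR1, hR2, hR3⟩ := exists_reps' (CG a) hq
  have hfx : ∀ δ ∈ CG a, ∀ σ ∈ Fy a, sH δ σ ∈ Fy a := fun δ hδ σ hσ => by
    have := fy_cj δ hσ
    rwa [show cj δ a = a from hδ] at this
  have hchX : ∀ z, ch z ∈ Fy a := fun z => hch.range ▸ Set.mem_range_self z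
  have main := dim_le ((LinearMap.funLeft ℂ ℂ ch).domRestrict (MIV a ch {γ | Lv q γ} k))
    (fun j : R × hT2.toFinset => (Rx.ext U j.2.1).comp ((LinearMap.funLeft ℂ ℂ ch).comp
      ((slash k (mz j.1.1.1)).domRestrict (MIV a ch {γ | Lv q γ} k)))) (C2 * k + 1)
    (fun j f => Pool.Agent.Lib.MP_940f24_an.analyticOnNhd_of_differentiableOn (Rx.isOpen_ext hch.op _)
      (Rx.ext_diff hch.toChart0 (slash_mem_sp j.1.1.2 f.2.1) _) 0
      (hrU (hin _ (hT2.mem_toFinset.1 j.2.2) 0 (Metric.mem_ball_self hr))))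
    fun f hf => by
      have all : ∀ M, 0 ≤ M → (∀ δ ∈ R, ∀ σ ∈ Fy a, (σ.1 : ι → ι → ℂ) ∈ K → Le k f.1 M (sH δ σ)) →
          ∀ τ ∈ Fy a, Le k f.1 (M * C ^ k) τ := fun M hM h =>
        hC k f.1 f.2.1 M hM fun η hη σ hσ hσK => by
          obtain ⟨δ, hδ, h1, -⟩ := hR3 η hη
          obtain ⟨z, hz⟩ : sH δ σ ∈ Set.range ch := hch.range ▸ hfx δ (hR2 δ hδ) σ hσ
          have h2 := f.2.2 _ h1 (mem_Cz.2 (mul_mem hη (inv_mem (hR2 δ hδ)))) z
          rw [← inv_mul_cancel_right η δ, sH_mul, ← le_slash, Le, ← hz, h2, hz]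
          exact h δ hδ σ hσ hσK
      have key : ∀ M, 0 ≤ M → (∀ δ ∈ R, ∀ σ ∈ Fy a, (σ.1 : ι → ι → ℂ) ∈ K → Le k f.1 M (sH δ σ)) →
          ∀ δ ∈ R, ∀ σ ∈ Fy a, (σ.1 : ι → ι → ℂ) ∈ K → Le k f.1 (M / 2) (sH δ σ) := by
        intro M hM h δ hδ σ hσ hσK
        obtain ⟨z, rfl⟩ : σ ∈ Set.range ch := hch.range ▸ hσ
        obtain ⟨t, ht, h1⟩ := Set.mem_iUnion₂.1 (hT3 (hpr z hσK))
        have h2 := schwarz (B := M * C ^ k * |C1| ^ (8 * k)) (R := r) (y := z.1 - t)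
          ((Rx.ext_diff hch.toChart0 (slash_mem_sp δ.2 f.2.1) t).mono fun y hy => hrU (hin t ht y hy))
          (fun y hy => by
            rw [Rx.ext_apply _ (hrU (hin t ht y hy))]
            refine ((le_slash δ _).2 (all M hM h _ (hfx δ (hR2 δ hδ) _ (hchX _)))).trans
              (mul_le_mul_of_nonneg_left (pow_le_pow_left₀ (NN_pos (ch _).2).le
                ((hC1 _ (hin t ht y hy)).trans (le_abs_self _)) _) (by positivity)))
          (hf (⟨δ, hδ⟩, ⟨t, hT2.mem_toFinset.2 ht⟩)) (by simpa [dist_eq_norm] using h1)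
        have e : t + (z.1 - t) = z.1 := add_sub_cancel _ _
        have e' : t + (z.1 - t) ∈ U := by
          rw [e]
          exact z.2
        rw [Rx.ext_apply _ e', show (⟨_, e'⟩ : U) = z from Subtype.ext e] at h2
        rw [← le_slash]
        refine h2.trans ?_
        calc M * C ^ k * |C1| ^ (8 * k) * (1 / 2) ^ (C2 * k + 1)
            = M / 2 * (C * |C1| ^ 8 * (1 / 2) ^ C2) ^ k := by
              rw [mul_pow, mul_pow, ← pow_mul, ← pow_mul, pow_succ]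
              ring
          _ ≤ M / 2 * (c0 ^ 8) ^ k := by gcongr
          _ ≤ _ := by
              rw [← pow_mul]
              exact mul_le_mul_of_nonneg_left (pow_le_pow_left₀ hc0.le (hlow _ (ch z).2) _)
                (by positivity)
      choose B hB using fun δ : SpZ ι => MF.bound (slash_mem_sp δ.2 f.2.1) hc1
      obtain ⟨M, hM⟩ : ∃ M, M = (∑ δ ∈ R, |B δ|) / c0 ^ (8 * k) := ⟨_, rfl⟩
      have hM0 : 0 ≤ M := by rw [hM]; positivity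
      have hj : ∀ j : ℕ, ∀ δ ∈ R, ∀ σ ∈ Fy a, (σ.1 : ι → ι → ℂ) ∈ K →
          Le k f.1 (M * (1 / 2) ^ j) (sH δ σ) := fun j => by
        induction j with
        | zero =>
          intro δ hδ σ _ hσK
          rw [← le_slash, pow_zero, mul_one, hM]
          have h2 : ‖slash k (mz δ.1) f.1 σ‖ ≤ ∑ δ ∈ R, |B δ| :=
            ((hB δ σ (hK1 _ hσK)).trans (le_abs_self _)).trans
              (Finset.single_le_sum (f := fun δ => |B δ|) (fun _ _ => abs_nonneg _) hδ)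
          refine h2.trans ?_
          rw [div_mul_eq_mul_div, le_div_iff₀ (pow_pos hc0 _)]
          exact mul_le_mul_of_nonneg_left (pow_le_pow_left₀ hc0.le (hlow _ σ.2) _)
            ((norm_nonneg _).trans h2)
        | succ j ih =>
          rw [pow_succ, ← mul_assoc, ← mul_div_assoc, mul_one]
          exact key _ (by positivity) ih
      funext z
      have h2 : Filter.Tendsto (fun j : ℕ => M * (1 / 2 : ℝ) ^ j * C ^ k * NN (ch z).1 ^ (8 * k))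
          Filter.atTop (nhds (M * 0 * C ^ k * NN (ch z).1 ^ (8 * k))) :=
        (((tendsto_pow_atTop_nhds_zero_of_lt_one (by norm_num) (by norm_num)).const_mul
          M).mul_const _).mul_const _
      rw [mul_zero, zero_mul, zero_mul] at h2
      exact norm_le_zero_iff.1 (ge_of_tendsto' h2 fun j =>
        all _ (by positivity) (hj j) _ (hchX z))
  rw [LinearMap.range_domRestrict] at main
  refine ⟨main.1, main.2.trans ?_⟩
  rw [Fintype.card_prod, Fintype.card_coe, Fintype.card_coe, mul_assoc, mul_assoc, mul_assoc,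
    ← mul_pow]
  exact Nat.mul_le_mul hR1 (Nat.mul_le_mul_left _ (Nat.pow_le_pow_left (by nlinarith) _))

end MG.Ry
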